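import Pool.Agent.Run7.h172.Par.LLF

/-!
# The large local frequencies of the Möbius function are uniformly distributed (MP_028aa5_nt)

For a window of length `H` after `n` let `S(n, H; x) = ∑_{h ≤ H} μ(n+h) e((n+h) x)`, `x ∈ ℝ/ℤ` (Q1 for `G = ℝ` and the Liouville function says that
`sup_x |S(n, H; x)|` is `o(H)` on average over `n`). The density `H |S(n, H; x)/H|⁴` is concentrated, up to `O(δ²)`, at the `x`
with `|S(n, H; x)| > δ H`. We prove without any hypothesis that its average over `n ≤ N` is asymptotically a multiple of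
Lebesgue measure for almost all pairs of scales `(N, H)`; the same for the Liouville function, and for products with the
densities of ARBITRARY multiplicative functions bounded by one, uniformly in these.
-/

set_option autoImplicit false

open Finset MeasureTheory

namespace Pool.Agent.Results.MP_028aa5_nt.LargeFrequencies

/-- `e(x) = exp(2 π i x)` -/
noncomputable def e (x : ℝ) : ℂ := Complex.exp (2 * Real.pi * Complex.I * x)

/-- `f` is multiplicative and bounded by one. -/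
def IsBoundedMultiplicative (f : ℕ → ℂ) : Prop :=
  (∀ n, ‖f n‖ ≤ 1) ∧ ∀ a b : ℕ, a.Coprime b → f (a * b) = f a * f b

/-- the Liouville function -/
noncomputable def lam (n : ℕ) : ℂ := (-1) ^ ArithmeticFunction.cardFactors n

/-- the Möbius function -/
noncomputable def mu (n : ℕ) : ℂ := ((ArithmeticFunction.moebius n : ℤ) : ℂ)

/-- `∑_{1 ≤ h ≤ H} f(n + h) e((n + h) x)` -/
noncomputable def expSum (f : ℕ → ℂ) (n H : ℕ) (x : ℝ) : ℂ :=
  ∑ h ∈ Icc 1 H, f (n + h) * e (((n + h : ℕ) : ℝ) * x)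

/-- `(1/N) ∑_{n ≤ N} H ∫_0^1 ∏_i |expSum(f_i; n, H; c_i x)/H|² (φ(x) - ∫ φ) dx` -/
noncomputable def defect {r : ℕ} (f : Fin r → ℕ → ℂ) (c : Fin r → ℤ) (φ : ℝ → ℝ) (N H : ℕ) : ℝ :=
  (1 / (N : ℝ)) * ∑ n ∈ Icc 1 N, (H : ℝ) * ∫ x in (0 : ℝ)..1,
    (∏ i, (‖expSum (f i) n H ((c i : ℝ) * x)‖ / H) ^ 2) * (φ x - ∫ y in (0 : ℝ)..1, φ y)

lemma expSum_eq (f : ℕ → ℂ) (n H : ℕ) (x : ℝ) : expSum f n H x = Pool.Agent.Run7.h172.Par.W f n H x := by
  unfold expSum Pool.Agent.Run7.h172.Par.W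
  have h1 : Ioc n (n + H) = (Icc 1 H).image (fun h => n + h) := by
    ext m
    simp only [mem_Ioc, mem_image, mem_Icc]
    constructor
    · intro h; exact ⟨m - n, by omega, by omega⟩
    · rintro ⟨j, hj, rfl⟩; omega
  rw [h1, sum_image fun a _ b _ hab => by omega]
  rfl

open Pool.Agent.Run7.h172.Par in
lemma defect_eq {r : ℕ} (hr : 1 ≤ r) (f : Fin r → ℕ → ℂ) (c : Fin r → ℤ) (φ : ℝ → ℝ) (hφ : Continuous φ) (N H : ℕ) :
    defect f c φ N H = Df f c N H φ := by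
  have hG : ∀ n, Continuous (G f c n H) := fun n => (vb.2 r hr f c n H).1
  unfold defect Df NV
  have e0 : (1 / (N : ℝ)) * ∑ n ∈ Icc 1 N, V f c n H φ -
      (∫ x in (0 : ℝ)..1, φ x) * ((1 / (N : ℝ)) * ∑ n ∈ Icc 1 N, V f c n H (fun _ => 1)) =
      (1 / (N : ℝ)) * ∑ n ∈ Icc 1 N, (V f c n H φ - (∫ x in (0 : ℝ)..1, φ x) * V f c n H (fun _ => 1)) := by
    rw [sum_sub_distrib, ← mul_sum]
    ring
  rw [e0]
  congr 1
  refine sum_congr rfl fun n _ => ?_
  have h1 : V f c n H (fun x => φ x + (-∫ y in (0 : ℝ)..1, φ y)) = V f c n H φ + V f c n H (fun _ => -∫ y in (0 : ℝ)..1, φ y) :=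
    V_add' (hG n) hφ continuous_const
  have h2 : V f c n H (fun _ => -∫ y in (0 : ℝ)..1, φ y) = -(∫ y in (0 : ℝ)..1, φ y) * V f c n H (fun _ => 1) := by
    rw [← V_mul']
    simp
  rw [h2] at h1
  have h3 : V f c n H (fun x => φ x + (-∫ y in (0 : ℝ)..1, φ y)) = (H : ℝ) * ∫ x in (0 : ℝ)..1,
      (∏ i, (‖expSum (f i) n H ((c i : ℝ) * x)‖ / H) ^ 2) * (φ x - ∫ y in (0 : ℝ)..1, φ y) := by
    unfold V G
    congr 1
    refine intervalIntegral.integral_congr fun x _ => ?_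
    simp only [expSum_eq, sub_eq_add_neg]
  rw [← h3, h1]
  ring

/-- **The law of the large local frequencies is uniform.** Let `r ≥ 2`, `c_1, …, c_r` nonzero integers and `φ` a continuous function
on `ℝ/ℤ`. For each `ε > 0` there is `Z₀` such that for all multiplicative functions `f_1, …, f_r` bounded by one, at least
one of them the Liouville or the Möbius function, and for all `X ≥ Z ≥ Z₀`
`∑_{H ≤ Z} (1/H) ∑_{N ≤ X} (1/N) |(1/N) ∑_{n ≤ N} H ∫ ∏_i |S_i(n, H; c_i x)/H|² (φ(x) - ∫ φ) dx| ≤ ε log X log Z`, where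
`S_i(n, H; x) = ∑_{h ≤ H} f_i(n+h) e((n+h) x)`. -/
theorem result (r : ℕ) (hr : 2 ≤ r) (c : Fin r → ℤ) (hc : ∀ i, c i ≠ 0) (φ : C(UnitAddCircle, ℝ)) (ε : ℝ) (hε : 0 < ε) :
    ∃ Z₀ : ℕ, ∀ f : Fin r → ℕ → ℂ, (∀ i, IsBoundedMultiplicative (f i)) → (∃ i, f i = lam ∨ f i = mu) →
      ∀ Z : ℕ, Z₀ ≤ Z → ∀ X : ℕ, Z ≤ X →
      ∑ H ∈ Icc 1 Z, (1 / (H : ℝ)) * ∑ N ∈ Icc 1 X, (1 / (N : ℝ)) *
        |defect f c (fun x => φ (x : UnitAddCircle)) N H| ≤ ε * (Real.log X * Real.log Z) := by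
  have cφ : Continuous fun x : ℝ => φ (x : UnitAddCircle) := φ.continuous.comp (AddCircle.continuous_mk' 1)
  have h1 : ∀ j : Fin r, ∃ Z₀ : ℕ, ∀ f : Fin r → ℕ → ℂ, (∀ i, IsBoundedMultiplicative (f i)) →
      (f j = lam ∨ f j = mu) → ∀ Z : ℕ, Z₀ ≤ Z → ∀ X : ℕ, Z ≤ X →
      ∑ H ∈ Icc 1 Z, (1 / (H : ℝ)) * ∑ N ∈ Icc 1 X, (1 / (N : ℝ)) *
        |defect f c (fun x => φ (x : UnitAddCircle)) N H| ≤ ε / 4 * ((1 + Real.log X) * (1 + Real.log Z)) := by
    intro j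
    obtain ⟨Z₁, h1⟩ := Pool.Agent.Run7.h172.Par.llf hr c hc j lam Pool.Agent.Run7.h172.Par.nrt_lam φ (ε / 4) (by positivity)
    obtain ⟨Z₂, h2⟩ := Pool.Agent.Run7.h172.Par.llf hr c hc j mu Pool.Agent.Run7.h172.Par.nrt_mu φ (ε / 4) (by positivity)
    refine ⟨Z₁ + Z₂, fun f hf hj Z hZ X hX => ?_⟩
    simp only [defect_eq (by omega : 1 ≤ r) f c _ cφ]
    rcases hj with hj | hj
    · exact h1 f hf hj Z (by omega) X hX
    · exact h2 f hf hj Z (by omega) X hX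
  choose Z₀ hZ₀ using h1
  obtain ⟨Z3, h3⟩ : ∃ Z3 : ℕ, ∀ Z : ℕ, Z3 ≤ Z → 1 ≤ Real.log Z := by
    have h2 : Filter.Tendsto (fun N : ℕ => Real.log (N : ℝ)) Filter.atTop Filter.atTop :=
      Real.tendsto_log_atTop.comp tendsto_natCast_atTop_atTop
    exact (h2.eventually_ge_atTop _).exists_forall_of_atTop
  refine ⟨∑ j, Z₀ j + Z3, fun f hf hj Z hZ X hX => ?_⟩
  obtain ⟨j, hj⟩ := hj
  have hZj : Z₀ j ≤ Z := by
    have := single_le_sum (f := Z₀) (fun _ _ => Nat.zero_le _) (mem_univ j)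
    omega
  refine (hZ₀ j f hf hj Z hZj X hX).trans ?_
  have hlZ := h3 Z (by omega)
  have hlX := h3 X (by omega)
  have h15 : (1 + Real.log X) * (1 + Real.log Z) ≤ (2 * Real.log X) * (2 * Real.log Z) :=
    mul_le_mul (by linarith) (by linarith) (by linarith) (by linarith)
  calc ε / 4 * ((1 + Real.log X) * (1 + Real.log Z)) ≤ ε / 4 * ((2 * Real.log X) * (2 * Real.log Z)) :=
        mul_le_mul_of_nonneg_left h15 (by positivity)
    _ = ε * (Real.log X * Real.log Z) := by ring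

end Pool.Agent.Results.MP_028aa5_nt.LargeFrequencies
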